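import Pool.Agent.Helper62.OP.Defs
import Pool.Agent.Helper93.NR.Point

/-!
# OP, block O4c (reserve): crude bound for the statistic
-/

set_option autoImplicit false
open MeasureTheory Set Filter Topology
open Pool.Agent.Helper93.UG (zc sp)
open Pool.Agent.Helper57.NS (cnt)
open Pool.Agent.Helper62.OP

namespace Pool.Agent.Helper28.OP

lemma cnt_crude : ∃ C : ℝ, 1 ≤ C ∧ ∀ T L : ℝ, 25 ≤ T → 0 < L → L ≤ Real.log T → ∀ (W : Set ℝ) (u : ℝ), W ⊆ Icc (-L) L →
    |cnt T u W| ≤ C * Real.log (|u| + T) := by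
  obtain ⟨C, hC, H⟩ := Pool.Agent.Helper93.NR.zc_long
  refine ⟨15 * C + 1, by linarith, fun T L hT hL hLT W u hW => ?_⟩
  have hlT : 0 < Real.log T := by linarith
  have hs : 0 < sp T := by unfold sp; positivity
  have hLs : L * sp T ≤ 7 := by
    unfold sp
    rw [mul_div_assoc', div_le_iff₀ hlT]
    have := Real.pi_lt_d2
    nlinarith [Real.pi_pos]
  have hsub : {v : ℝ | (v - u) / sp T ∈ W} ⊆ Icc (u - 7) (u - 7 + (14 : ℕ)) := by
    intro v hv
    have h1 := hW hv
    have h2 : -L * sp T ≤ v - u := by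
      have := h1.1
      rwa [le_div_iff₀ hs] at this
    have h3 : v - u ≤ L * sp T := by
      have := h1.2
      rwa [div_le_iff₀ hs] at this
    constructor
    · linarith
    · push_cast
      linarith
  have h1 : (zc {v : ℝ | (v - u) / sp T ∈ W} : ℝ) ≤ zc (Icc (u - 7) (u - 7 + (14 : ℕ))) := by
    exact_mod_cast Pool.Agent.Helper56.UG.zc_mono hsub (le_refl _)
  unfold cnt
  rw [abs_of_nonneg (Nat.cast_nonneg _)]
  refine h1.trans ((H 14 (u - 7)).trans ?_)
  have h2 : Real.log (4 + |u - 7| + (14 : ℕ)) ≤ Real.log (|u| + T) := by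
    apply Real.log_le_log
    · positivity
    · have := abs_sub u 7
      rw [abs_of_pos (show (0:ℝ) < 7 by norm_num)] at this
      push_cast
      linarith
  have h3 : 0 ≤ Real.log (|u| + T) := Real.log_nonneg (by linarith [abs_nonneg u])
  have h4 : C * Real.log (4 + |u - 7| + (14 : ℕ)) ≤ C * Real.log (|u| + T) := mul_le_mul_of_nonneg_left h2 hC.le
  push_cast at h4 ⊢
  nlinarith

/-- O4c: crude bound -/
theorem st_crude : ∃ C T₀ : ℝ, 1 ≤ C ∧ ∀ T R L : ℝ, T₀ ≤ T → 0 < R → R ≤ L → L ≤ Real.log T → ∀ (F : Fam R L) (u : ℝ),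
    |St F T u| ≤ C * F.B * Real.log (|u| + T) := by
  obtain ⟨C, hC, H⟩ := cnt_crude
  refine ⟨C, 25, hC, fun T R L hT hR hRL hLT F u => ?_⟩
  have hL : 0 < L := by linarith
  have h1 := H T L hT hL hLT (Icc (-R) R) u (Icc_subset_Icc (by linarith) hRL)
  have h2 : ∀ i, |cnt T u (Icc (F.a i) (F.b i))| ≤ C * Real.log (|u| + T) := by
    intro i
    refine H T L hT hL hLT _ u (Icc_subset_Icc ?_ ?_)
    · rcases F.out i with h | h <;> linarith [h.1]
    · rcases F.out i with h | h <;> linarith [h.2]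
  unfold St Fam.B
  calc |cnt T u (Icc (-R) R) + ∑ i, F.c i * cnt T u (Icc (F.a i) (F.b i))| ≤
      |cnt T u (Icc (-R) R)| + ∑ i, |F.c i * cnt T u (Icc (F.a i) (F.b i))| :=
        (abs_add_le _ _).trans (add_le_add le_rfl (Finset.abs_sum_le_sum_abs _ _))
    _ ≤ C * Real.log (|u| + T) + ∑ i, |F.c i| * (C * Real.log (|u| + T)) := by
        refine add_le_add h1 (Finset.sum_le_sum fun i _ => ?_)
        rw [abs_mul]
        exact mul_le_mul_of_nonneg_left (h2 i) (abs_nonneg _)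
    _ = C * (1 + ∑ i, |F.c i|) * Real.log (|u| + T) := by
        rw [← Finset.sum_mul]
        ring

end Pool.Agent.Helper28.OP
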