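import Pool.Agent.Helper62.OP.Defs
import Pool.Agent.Helper28.OPT.Msum

/-!
# OP, block O7a: the norm of the test sequence
-/

set_option autoImplicit false
open MeasureTheory Set Filter Topology
open Pool.Agent.Helper69.UG (XX)
open Pool.Agent.Helper57.TX (QX)
open Pool.Agent.Helper93.NS (mem_QX)
open Pool.Agent.Helper62.OP

namespace Pool.Agent.Helper28.OP

/-- general form -/
theorem msum_gen : ∃ C : ℝ, 0 < C ∧ ∀ X X' : ℝ, 1 ≤ X' → X' ≤ X → ∀ m : ℕ → ℝ,
    (∀ p ∈ QX X, 0 ≤ m p ∧ m p ≤ 1 ∧ m p ≤ 2 * (Real.log p / X')) →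
    ∑ p ∈ QX X, m p ^ 2 / p ≤ Real.log (X / X') + C := by
  classical
  obtain ⟨E, hE, H⟩ := Pool.Agent.Helper28.OPT.recip_sum_up
  obtain ⟨E', hE', H'⟩ := Pool.Agent.Helper82.NS.mert_small
  refine ⟨E + 4 * (1 + E'), by positivity, fun X X' h1 h2 m hm => ?_⟩
  have hX'0 : 0 < X' := by linarith
  have hspl : ∑ p ∈ QX X, m p ^ 2 / p = ∑ p ∈ QX X', m p ^ 2 / p +
      ∑ p ∈ (QX X).filter (fun p : ℕ => X' < Real.log p), m p ^ 2 / p := by
    rw [← Finset.sum_filter_add_sum_filter_not (QX X) (fun p : ℕ => X' < Real.log p), add_comm]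
    congr 1
    refine Finset.sum_congr ?_ fun _ _ => rfl
    ext p
    rw [Finset.mem_filter, mem_QX, mem_QX]
    constructor
    · rintro ⟨⟨h3, h4⟩, h5⟩
      exact ⟨h3, not_lt.1 h5⟩
    · rintro ⟨h3, h4⟩
      exact ⟨⟨h3, h4.trans h2⟩, not_lt.2 h4⟩
  have hb : ∑ p ∈ (QX X).filter (fun p : ℕ => X' < Real.log p), m p ^ 2 / p ≤ Real.log (X / X') + E := by
    refine le_trans (Finset.sum_le_sum fun p hp => ?_) (H X' X h1 h2 _ fun p => by
      rw [Finset.mem_filter, mem_QX]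
      tauto)
    have hpX := (Finset.mem_filter.1 hp).1
    have hp' := (mem_QX.1 hpX).1
    have hp0 : (0:ℝ) < p := by exact_mod_cast hp'.pos
    obtain ⟨h3, h4, -⟩ := hm p hpX
    exact div_le_div_of_nonneg_right (pow_le_one₀ h3 h4) hp0.le
  have hs : ∑ p ∈ QX X', m p ^ 2 / p ≤ 4 * (1 + E') := by
    have h3 : ∀ p ∈ QX X', m p ^ 2 / p ≤ 4 / X' * (Real.log p / p) := by
      intro p hp
      obtain ⟨hp', hpl⟩ := mem_QX.1 hp
      have hp0 : (0:ℝ) < p := by exact_mod_cast hp'.pos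
      obtain ⟨h3, h4, h5⟩ := hm p (mem_QX.2 ⟨hp', hpl.trans h2⟩)
      have hl : 0 ≤ Real.log p := Real.log_nonneg (by exact_mod_cast hp'.one_lt.le)
      have h6 : Real.log p / X' ≤ 1 := (div_le_one hX'0).2 hpl
      have h7 : m p ^ 2 ≤ 4 / X' * Real.log p := by
        have h8 : m p ^ 2 ≤ (2 * (Real.log p / X')) ^ 2 := pow_le_pow_left₀ h3 h5 2
        have h9 : 0 ≤ Real.log p / X' := div_nonneg hl hX'0.le
        have h10 : (2 * (Real.log p / X')) ^ 2 ≤ 4 * (Real.log p / X') := by nlinarith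
        calc _ ≤ _ := h8
          _ ≤ _ := h10
          _ = _ := by ring
      calc m p ^ 2 / p ≤ 4 / X' * Real.log p / p := div_le_div_of_nonneg_right h7 hp0.le
        _ = _ := by ring
    refine (Finset.sum_le_sum h3).trans ?_
    rw [← Finset.mul_sum]
    have h4 := H' X' hX'0.le
    calc 4 / X' * ∑ p ∈ QX X', Real.log p / p ≤ 4 / X' * (X' + E') := mul_le_mul_of_nonneg_left h4 (by positivity)
      _ = 4 + 4 * (E' / X') := by field_simp
      _ ≤ 4 + 4 * E' := by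
        have : E' / X' ≤ E' := div_le_self hE'.le h1
        linarith
      _ = _ := by ring
  rw [hspl]
  linarith

/-- the far scale is less than `log T` -/
lemma lf_le {k d T R L : ℝ} (hk : 0 < k) (hkd : k ≤ d / 100) (hd : 0 < d) (hd1 : d ≤ 1) (hlT : 1 ≤ Real.log T)
    (hL : 1 ≤ L) (h : Rng d T R L) : Lf k R L ≤ Real.log T := by
  obtain ⟨h1, h2, -⟩ := h
  have hL0 : 0 < L := by linarith
  have hR1 : 1 ≤ R := (Real.one_le_rpow hL hd.le).trans h2
  unfold Lf
  have h3 : L / R ≤ L := div_le_self hL0.le hR1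
  have hR0 : 0 < R := by linarith
  have h4 : (L / R) ^ k ≤ L ^ k := Real.rpow_le_rpow (by positivity) h3 hk.le
  calc L * (L / R) ^ k ≤ L * L ^ k := mul_le_mul_of_nonneg_left h4 hL0.le
    _ = L ^ (1 + k) := by rw [Real.rpow_add hL0, Real.rpow_one]
    _ ≤ (Real.log T ^ (1 - d)) ^ (1 + k) := Real.rpow_le_rpow hL0.le h1 (by linarith)
    _ = Real.log T ^ ((1 - d) * (1 + k)) := by rw [← Real.rpow_mul (by linarith)]
    _ ≤ Real.log T ^ (1:ℝ) := Real.rpow_le_rpow_of_exponent_le hlT (by nlinarith)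
    _ = Real.log T := Real.rpow_one _

/-- O7a -/
theorem mt_sum {k d : ℝ} (hk : 0 < k) (hkd : k ≤ d / 100) (hd : 0 < d) (hd1 : d ≤ 1) : ∃ C T₀ : ℝ, 1 ≤ C ∧
    ∀ T R L : ℝ, T₀ ≤ T → C ≤ L → Rng d T R L →
      ∑ p ∈ QX (Xo k T R L), mt k T R L p ^ 2 / p ≤ (1 + 2 * k) * Real.log (L / R) + C := by
  obtain ⟨C, hC, H⟩ := msum_gen
  obtain ⟨T0, hT0⟩ := eventually_atTop.mp (Real.tendsto_log_atTop.eventually_ge_atTop 1)
  refine ⟨C + 1, T0, by linarith, fun T R L hT hL hr => ?_⟩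
  have hlT := hT0 T hT
  have hL1 : 1 ≤ L := by linarith
  have hLf := lf_le hk hkd hd hd1 hlT hL1 hr
  obtain ⟨h1, h2, h3⟩ := hr
  have hL0 : 0 < L := by linarith
  have hR1 : 1 ≤ R := (Real.one_le_rpow hL1 hd.le).trans h2
  have hR0 : 0 < R := by linarith
  have hRL : R ≤ L := by
    refine h3.trans ?_
    calc L ^ (1 - d) ≤ L ^ (1:ℝ) := Real.rpow_le_rpow_of_exponent_le hL1 (by linarith)
      _ = L := Real.rpow_one _
  have hU : 1 ≤ L / R := (one_le_div hR0).2 hRL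
  have hU0 : 0 < L / R := by linarith
  have hLf0 : 0 < Lf k R L := by unfold Lf; positivity
  have hMs0 : 0 < Ms k R L := by unfold Ms; positivity
  have hMsLf : Ms k R L ≤ Lf k R L := by
    unfold Ms Lf
    have e1 : (L / R) ^ (-k) ≤ 1 := Real.rpow_le_one_of_one_le_of_nonpos hU (by linarith)
    have e2 : 1 ≤ (L / R) ^ k := Real.one_le_rpow hU hk.le
    calc R * (L / R) ^ (-k) ≤ R * 1 := mul_le_mul_of_nonneg_left e1 hR0.le
      _ ≤ L * 1 := by linarith
      _ ≤ L * (L / R) ^ k := mul_le_mul_of_nonneg_left e2 hL0.le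
  have hX' : 1 ≤ Real.log T / Lf k R L := (one_le_div hLf0).2 hLf
  have hXo : Xo k T R L = Real.log T / Ms k R L := rfl
  have hXX : Real.log T / Lf k R L ≤ Xo k T R L := by
    rw [hXo]
    exact div_le_div_of_nonneg_left (by linarith) hMs0 hMsLf
  have hmain := H (Xo k T R L) (Real.log T / Lf k R L) hX' hXX (mt k T R L) fun p hp => by
    have hp' := (mem_QX.1 hp).1
    have hl : 0 ≤ Real.log p := Real.log_nonneg (by exact_mod_cast hp'.one_lt.le)
    have hb : Lf k R L * Real.log p / Real.log T = Real.log p / (Real.log T / Lf k R L) := by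
      field_simp
    unfold Pool.Agent.Helper62.OP.mt
    rw [hb]
    set b := Real.log p / (Real.log T / Lf k R L)
    have hb0 : 0 ≤ b := div_nonneg hl (by linarith)
    have h0 : 0 ≤ max 0 (1 - b) := le_max_left _ _
    have h4 : max 0 (1 - b) ≤ 1 := max_le zero_le_one (by linarith)
    have h5 : 1 - b ≤ max 0 (1 - b) := le_max_right _ _
    refine ⟨by nlinarith, by nlinarith, by nlinarith⟩
  refine hmain.trans ?_
  have hq : Xo k T R L / (Real.log T / Lf k R L) = (L / R) ^ (1 + 2 * k) := by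
    rw [hXo]
    have hlT0 : Real.log T ≠ 0 := by linarith
    have e1 : Real.log T / Ms k R L / (Real.log T / Lf k R L) = Lf k R L / Ms k R L := by field_simp
    rw [e1]
    unfold Ms Lf
    rw [show (1 + 2 * k : ℝ) = 1 + k + k by ring, Real.rpow_add hU0, Real.rpow_add hU0, Real.rpow_one, Real.rpow_neg hU0.le]
    field_simp
  rw [hq, Real.log_rpow hU0]
  linarith

end Pool.Agent.Helper28.OP
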