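import Pool.Agent.Helper28.OP.OptBase

/-!
# OP, block O12: the theorem over the blocks
-/

set_option autoImplicit false
open MeasureTheory Set Filter Topology
open Pool.Agent.Helper57.Zeta Pool.Agent.Helper57.LH Pool.Agent.Helper57.ED
open Pool.Agent.Helper54.LG (za zb qk SS MM)
open Pool.Agent.Helper93.UG (zc sp)
open Pool.Agent.Helper69.UG (XX NX near far)
open Pool.Agent.Helper57.TX (QX DP rs)
open Pool.Agent.Helper57.NS (cnt)
open Pool.Agent.Helper62.OP

namespace Pool.Agent.Helper28.OP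

theorem opt_of (inc_loss : StIncLoss) (inc_prime : StIncPrime) (st_bd : StBd) (step_st : StStep) (pf_eq : StPfEq)
    (ev_le : StEvLe) (pf_tail : StPfTail) {d : ℝ} (hd : 0 < d) (hd1 : d ≤ 1) : ∃ c C T₀ : ℝ, 0 < c ∧ 1 ≤ C ∧
    ∀ T R L e : ℝ, T₀ ≤ T → C ≤ L → Rng d T R L →
    d ≤ e → e ≤ 2 → ∀ (F : Fam R L) (A : ℝ), F.B ≤ L ^ c →
      ENNReal.ofReal ((L / R) ^ (-((1 + d) * e ^ 2)) * T) ≤ volume {t : ℝ | T ≤ t ∧ t ≤ 2 * T ∧ e < |St F T t - A|} := by
  obtain ⟨k, hkdef⟩ : ∃ k : ℝ, k = d / 1000 := ⟨_, rfl⟩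
  have hk : 0 < k := by rw [hkdef]; positivity
  have hkd : k ≤ d / 100 := by rw [hkdef]; linarith
  obtain ⟨η, hηdef⟩ : ∃ η : ℝ, η = d ^ 2 / 100 := ⟨_, rfl⟩
  have hη : 0 < η := by rw [hηdef]; positivity
  have hη1 : η ≤ 1 / 100 := by
    rw [hηdef]
    have : d ^ 2 ≤ 1 := pow_le_one₀ hd.le hd1
    linarith
  obtain ⟨e', he'def⟩ : ∃ e' : ℝ, e' = d ^ 4 / 10 := ⟨_, rfl⟩
  have he' : 0 < e' := by rw [he'def]; positivity
  have he'1 : e' ≤ 1 := by
    rw [he'def]
    have : d ^ 4 ≤ 1 := pow_le_one₀ hd.le hd1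
    linarith
  obtain ⟨c1, C1, T1, hc1, hC1, H1⟩ := inc_loss k d hk hkd hd hd1 10 (by norm_num)
  obtain ⟨c2, C2, T2, hc2, hC2, H2⟩ := inc_prime k d hk hkd hd hd1 10 (by norm_num)
  obtain ⟨c3, C3, T3, hc3, hC3, H3⟩ := pf_tail k d hk hkd hd hd1
  obtain ⟨C4, T4, hC4, H4⟩ := step_st k d hk hkd hd hd1 η e' hη he' he'1
  obtain ⟨C5, T5, hC5, H5⟩ := st_bd d hd hd1 e' 1 he' one_pos
  -- eventual inequalities
  have ev1 : ∀ᶠ L : ℝ in atTop, 2 * (C1 * L ^ (-(c1 / 2)) + C2 * L ^ (-(c2 / 2))) ≤ η := by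
    have h1 := (tendsto_rpow_neg_atTop (y := c1 / 2) (by positivity)).const_mul C1
    have h2 := (tendsto_rpow_neg_atTop (y := c2 / 2) (by positivity)).const_mul C2
    have h3 := (h1.add h2).const_mul 2
    simp only [mul_zero, add_zero] at h3
    exact (h3.eventually (gt_mem_nhds hη)).mono fun _ h => le_of_lt h
  have ev2 : ∀ᶠ L : ℝ in atTop, 2 * C3 * (C1 + C2 + C4 + 2) ≤ L ^ (5:ℝ) :=
    (tendsto_rpow_atTop (by norm_num)).eventually_ge_atTop _
  have ev3 : ∀ᶠ L : ℝ in atTop, 2 * C3 ≤ L ^ (d ^ 4 / 2) := (tendsto_rpow_atTop (by positivity)).eventually_ge_atTop _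
  have ev4 : ∀ᶠ L : ℝ in atTop, 3 ≤ L ^ e' := (tendsto_rpow_atTop he').eventually_ge_atTop _
  have ev5 : ∀ᶠ L : ℝ in atTop, 2 * C5 ≤ L := eventually_ge_atTop _
  have ev6 : ∀ᶠ L : ℝ in atTop, 2 ≤ L ^ (d ^ 3) := (tendsto_rpow_atTop (by positivity)).eventually_ge_atTop _
  have evT : ∀ᶠ T : ℝ in atTop, Real.log T ^ (10:ℝ) ≤ √T := by
    have h1 := (isLittleO_log_rpow_rpow_atTop (r := 10) (s := 1 / 2) (by norm_num)).bound (c := 1) one_pos
    filter_upwards [h1, eventually_ge_atTop 3] with T h2 h3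
    rw [Real.norm_eq_abs, Real.norm_eq_abs, one_mul, abs_of_nonneg (Real.rpow_nonneg (Real.log_nonneg (by linarith)) _),
      abs_of_nonneg (by positivity), ← Real.sqrt_eq_rpow] at h2
    exact h2
  obtain ⟨L0, hL0⟩ := eventually_atTop.mp (ev1.and (ev2.and (ev3.and (ev4.and (ev5.and (ev6.and (eventually_ge_atTop 1)))))))
  obtain ⟨T0, hT0⟩ := eventually_atTop.mp (evT.and (eventually_ge_atTop 100))
  refine ⟨min e' (min c3 (min (c1 / 2) (c2 / 2))), max L0 (max C1 (max C2 (max C3 (max C4 C5)))),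
    max T0 (max T1 (max T2 (max T3 (max T4 T5)))), by positivity, ?_, ?_⟩
  · exact hC1.trans ((le_max_left _ _).trans (le_max_right _ _))
  intro T R L e hT hL hr hde he2 F A hF
  simp only [max_le_iff] at hT hL
  obtain ⟨hTT, hT1, hT2, hT3, hT4, hT5⟩ := hT
  obtain ⟨hLL, hL1, hL2, hL3, hL4, hL5⟩ := hL
  obtain ⟨g1, g2, g3, g4, g5, g6, g7⟩ := hL0 L hLL
  obtain ⟨gT, gT3⟩ := hT0 T hTT
  have hTp : 0 < T := by linarith
  have hLp : 0 < L := by linarith
  have he0 : 0 < e := by linarith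
  obtain ⟨hR1, hRL, hU, hLT, hXo, hMs⟩ := rng_facts hk hd hd1 (by linarith : 3 ≤ T) g7 hr
  have hsp7 := Pool.Agent.Helper28.OP.sp_seven (lt_of_lt_of_le hLp hLT) hLT
  have hR0 : 0 < R := by linarith
  have hU1 : 1 ≤ L / R := (one_le_div hR0).2 hRL
  have hU0 : 0 < L / R := by linarith
  have hUL : L / R ≤ L := div_le_self hLp.le hR1
  obtain ⟨c, hcdef⟩ : ∃ c : ℝ, c = min e' (min c3 (min (c1 / 2) (c2 / 2))) := ⟨_, rfl⟩
  rw [← hcdef] at hF
  have hce : c ≤ e' := by rw [hcdef]; exact min_le_left _ _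
  have hcc3 : c ≤ c3 := by rw [hcdef]; exact (min_le_right _ _).trans (min_le_left _ _)
  have hcc1 : c ≤ c1 / 2 := by
    rw [hcdef]; exact (min_le_right _ _).trans ((min_le_right _ _).trans (min_le_left _ _))
  have hcc2 : c ≤ c2 / 2 := by
    rw [hcdef]; exact (min_le_right _ _).trans ((min_le_right _ _).trans (min_le_right _ _))
  have hFe : F.B ≤ L ^ e' := hF.trans (Real.rpow_le_rpow_of_exponent_le g7 hce)
  have hF3 : F.B ≤ L ^ c3 := hF.trans (Real.rpow_le_rpow_of_exponent_le g7 hcc3)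
  have hB1 := B_ge F
  obtain ⟨A', hA'⟩ : ∃ A' : ℝ, A' = A - Ev F id := ⟨_, rfl⟩
  have hset : {t : ℝ | T ≤ t ∧ t ≤ 2 * T ∧ e < |St F T t - A|} =
      {t : ℝ | T ≤ t ∧ t ≤ 2 * T ∧ e < |St F T t - Ev F id - A'|} := by
    ext t
    rw [mem_setOf_eq, mem_setOf_eq, hA', show St F T t - Ev F id - (A - Ev F id) = St F T t - A by ring]
  rw [hset]
  have hfin : volume {t : ℝ | T ≤ t ∧ t ≤ 2 * T ∧ e < |St F T t - Ev F id - A'|} ≤ ENNReal.ofReal T := by
    refine (measure_mono (t := Icc T (2 * T)) fun t ht => ⟨ht.1, ht.2.1⟩).trans ?_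
    rw [Real.volume_Icc]
    exact ENNReal.ofReal_le_ofReal (by linarith)
  rcases le_or_gt |A'| (L ^ (3 * e')) with hA | hA
  · -- the main case
    obtain ⟨E1, hE1, G1⟩ := H1 T R L hT1 hL1 hr
    obtain ⟨E2, hE2, G2⟩ := H2 T R L hT2 hL2 hr
    have G4 := H4 T R L hT4 hL4 hr F A' e hFe he0 he2 hA
    obtain ⟨G3a, G3b⟩ := H3 T R L (e + 3 * η) hT3 hL3 hr (by linarith) (by linarith) F hF3
    -- the approximation
    have happ : ∀ t ∈ Icc T (2 * T), t ∉ E1 → t ∉ E2 → |Ev F (Nt k T R L t) - Ev F id - Pf k T F t| ≤ η := by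
      intro t ht ht1 ht2
      have h1 : ∀ x : ℝ, |x| ≤ L → |Nt k T R L t x - x - (Pp k T R L t x - Pp k T R L t 0)| ≤
          C1 * L ^ (-c1) + C2 * L ^ (-c2) := by
        intro x hx
        obtain ⟨hsp, hsp0⟩ := hsp7
        have hx1 : -7 ≤ x * sp T := sp_low hsp hsp0 hx
        exact nt_split (by linarith) (by linarith [ht.1]) (by linarith [ht.1]) (G1 t ht ht1 x hx) (G2 t ht ht2 x hx)
      have h2 := ev_le R L _ hR0 hRL F _ h1
      have h3 : Ev F (fun x => Nt k T R L t x - x - (Pp k T R L t x - Pp k T R L t 0)) =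
          Ev F (Nt k T R L t) - Ev F id - Pf k T F t := by
        rw [Ev_sub F (fun x => Nt k T R L t x - x) (fun x => Pp k T R L t x - Pp k T R L t 0),
          Ev_sub F (Nt k T R L t) (fun x => x), Ev_sub F (Pp k T R L t) (fun _ => Pp k T R L t 0), Ev_const, pf_eq]
        simp only [sub_zero]
        rfl
      rw [h3] at h2
      refine h2.trans (le_trans ?_ g1)
      have h4 : L ^ c * L ^ (-c1) ≤ L ^ (-(c1 / 2)) := by
        rw [← Real.rpow_add hLp]
        exact Real.rpow_le_rpow_of_exponent_le g7 (by linarith)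
      have h5 : L ^ c * L ^ (-c2) ≤ L ^ (-(c2 / 2)) := by
        rw [← Real.rpow_add hLp]
        exact Real.rpow_le_rpow_of_exponent_le g7 (by linarith)
      calc 2 * F.B * (C1 * L ^ (-c1) + C2 * L ^ (-c2)) ≤ 2 * L ^ c * (C1 * L ^ (-c1) + C2 * L ^ (-c2)) := by gcongr
        _ = 2 * (C1 * (L ^ c * L ^ (-c1)) + C2 * (L ^ c * L ^ (-c2))) := by ring
        _ ≤ _ := by gcongr
    -- the lower bound for the smoothed statistic
    have hP : ENNReal.ofReal (1 / C3 * (L / R) ^ (-((1 + 10 * k) * (e + 3 * η) ^ 2)) * T) ≤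
        volume ({t : ℝ | t ∈ Icc (T + √T) (2 * T - √T) ∧ e + η < |Ev F (Nt k T R L t) - Ev F id - A'|} ∪
          (Icc T (T + √T) ∪ (Icc (2 * T - √T) (2 * T) ∪ (E1 ∪ E2)))) := by
      rcases le_or_gt 0 A' with hs | hs
      · refine G3b.trans (measure_mono ?_)
        rintro t ⟨ht, hPt⟩
        by_cases m1 : t ∈ Icc T (T + √T)
        · exact Or.inr (Or.inl m1)
        by_cases m2 : t ∈ Icc (2 * T - √T) (2 * T)
        · exact Or.inr (Or.inr (Or.inl m2))
        by_cases m3 : t ∈ E1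
        · exact Or.inr (Or.inr (Or.inr (Or.inl m3)))
        by_cases m4 : t ∈ E2
        · exact Or.inr (Or.inr (Or.inr (Or.inr m4)))
        have h1 := (abs_le.1 (happ t ht m3 m4)).2
        refine Or.inl ⟨⟨?_, ?_⟩, ?_⟩
        · by_contra hcon
          exact m1 ⟨ht.1, (not_le.1 hcon).le⟩
        · by_contra hcon
          exact m2 ⟨(not_le.1 hcon).le, ht.2⟩
        · rw [lt_abs]
          right
          linarith
      · refine G3a.trans (measure_mono ?_)
        rintro t ⟨ht, hPt⟩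
        by_cases m1 : t ∈ Icc T (T + √T)
        · exact Or.inr (Or.inl m1)
        by_cases m2 : t ∈ Icc (2 * T - √T) (2 * T)
        · exact Or.inr (Or.inr (Or.inl m2))
        by_cases m3 : t ∈ E1
        · exact Or.inr (Or.inr (Or.inr (Or.inl m3)))
        by_cases m4 : t ∈ E2
        · exact Or.inr (Or.inr (Or.inr (Or.inr m4)))
        have h1 := (abs_le.1 (happ t ht m3 m4)).1
        refine Or.inl ⟨⟨?_, ?_⟩, ?_⟩
        · by_contra hcon
          exact m1 ⟨ht.1, (not_le.1 hcon).le⟩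
        · by_contra hcon
          exact m2 ⟨(not_le.1 hcon).le, ht.2⟩
        · rw [lt_abs]
          left
          linarith
    have hsq0 : 0 ≤ √T := Real.sqrt_nonneg T
    have hL10 : 0 < L ^ (-10 : ℝ) := Real.rpow_pos_of_pos hLp _
    have hedge : √T ≤ L ^ (-10 : ℝ) * T := by
      have h1 : L ^ (10:ℝ) ≤ √T := (Real.rpow_le_rpow hLp.le hLT (by norm_num)).trans gT
      have h2 : L ^ (-10 : ℝ) * L ^ (10:ℝ) = 1 := by rw [← Real.rpow_add hLp]; norm_num
      have h3 : √T * √T = T := Real.mul_self_sqrt hTp.le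
      calc √T = L ^ (-10 : ℝ) * L ^ (10:ℝ) * √T := by rw [h2, one_mul]
        _ ≤ L ^ (-10 : ℝ) * √T * √T := by gcongr
        _ = L ^ (-10 : ℝ) * T := by rw [mul_assoc, h3]
    obtain ⟨y, hy⟩ : ∃ y : ℝ, y = (C1 + C2 + C4 + 2) * (L ^ (-10 : ℝ) * T) := ⟨_, rfl⟩
    obtain ⟨x, hx⟩ : ∃ x : ℝ, x = 1 / C3 * (L / R) ^ (-((1 + 10 * k) * (e + 3 * η) ^ 2)) * T := ⟨_, rfl⟩
    have hsum : ENNReal.ofReal x ≤ ENNReal.ofReal (L ^ (4 * e')) *
        volume {t : ℝ | T ≤ t ∧ t ≤ 2 * T ∧ e < |St F T t - Ev F id - A'|} + ENNReal.ofReal y := by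
      rw [hx]
      refine hP.trans ?_
      refine (measure_union_le _ _).trans ?_
      have h1 : volume (Icc T (T + √T) ∪ (Icc (2 * T - √T) (2 * T) ∪ (E1 ∪ E2))) ≤
          ENNReal.ofReal ((C1 + C2 + 2) * (L ^ (-10 : ℝ) * T)) := by
        refine (measure_union_le _ _).trans ?_
        have h2 : volume (Icc T (T + √T)) ≤ ENNReal.ofReal (L ^ (-10 : ℝ) * T) := by
          rw [Real.volume_Icc]
          exact ENNReal.ofReal_le_ofReal (by linarith)
        have h3 : volume (Icc (2 * T - √T) (2 * T)) ≤ ENNReal.ofReal (L ^ (-10 : ℝ) * T) := by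
          rw [Real.volume_Icc]
          exact ENNReal.ofReal_le_ofReal (by linarith)
        have h4 : volume (Icc (2 * T - √T) (2 * T) ∪ (E1 ∪ E2)) ≤ ENNReal.ofReal (L ^ (-10 : ℝ) * T) +
            (ENNReal.ofReal (C1 * L ^ (-10 : ℝ) * T) + ENNReal.ofReal (C2 * L ^ (-10 : ℝ) * T)) :=
          (measure_union_le _ _).trans (add_le_add h3 ((measure_union_le _ _).trans (add_le_add hE1 hE2)))
        refine (add_le_add h2 h4).trans (le_of_eq ?_)
        rw [← ENNReal.ofReal_add (by positivity) (by positivity), ← ENNReal.ofReal_add (by positivity) (by positivity),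
          ← ENNReal.ofReal_add (by positivity) (by positivity)]
        congr 1
        ring
      refine (add_le_add G4 h1).trans (le_of_eq ?_)
      rw [add_assoc, ← ENNReal.ofReal_add (by positivity) (by positivity), hy]
      congr 2
      ring
    have hx0 : 0 ≤ x := by rw [hx]; positivity
    have hy0 : 0 ≤ y := by rw [hy]; positivity
    have hyx : y ≤ x / 2 := by
      have h1 : (1 + 10 * k) * (e + 3 * η) ^ 2 ≤ 5 := by
        have h2 : 1 + 10 * k ≤ 101 / 100 := by rw [hkdef]; linarith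
        have h3 : e + 3 * η ≤ 203 / 100 := by linarith
        have h4 : (e + 3 * η) ^ 2 ≤ (203 / 100) ^ 2 := pow_le_pow_left₀ (by positivity) h3 2
        calc (1 + 10 * k) * (e + 3 * η) ^ 2 ≤ 101 / 100 * (203 / 100) ^ 2 := mul_le_mul h2 h4 (by positivity) (by norm_num)
          _ ≤ 5 := by norm_num
      have h2 : L ^ (-5 : ℝ) ≤ (L / R) ^ (-((1 + 10 * k) * (e + 3 * η) ^ 2)) := by
        have h3 : (L / R) ^ (-5 : ℝ) ≤ (L / R) ^ (-((1 + 10 * k) * (e + 3 * η) ^ 2)) :=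
          Real.rpow_le_rpow_of_exponent_le hU1 (by linarith)
        exact le_trans (Real.rpow_le_rpow_of_nonpos hU0 hUL (by norm_num)) h3
      have h3 : L ^ (5:ℝ) * L ^ (-10 : ℝ) = L ^ (-5 : ℝ) := by rw [← Real.rpow_add hLp]; norm_num
      have h4 : 2 * C3 * (C1 + C2 + C4 + 2) * L ^ (-10 : ℝ) ≤ L ^ (-5 : ℝ) := by
        rw [← h3]
        exact mul_le_mul_of_nonneg_right g2 hL10.le
      have h5 : 2 * C3 * y ≤ C3 * x := by
        have e1 : C3 * x = (L / R) ^ (-((1 + 10 * k) * (e + 3 * η) ^ 2)) * T := by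
          rw [hx]
          field_simp
        rw [e1, hy]
        calc 2 * C3 * ((C1 + C2 + C4 + 2) * (L ^ (-10 : ℝ) * T)) = 2 * C3 * (C1 + C2 + C4 + 2) * L ^ (-10 : ℝ) * T := by ring
          _ ≤ L ^ (-5 : ℝ) * T := by gcongr
          _ ≤ _ := by gcongr
      exact half_of (by linarith) h5
    have hK : 0 < L ^ (4 * e') := by positivity
    refine le_trans (ENNReal.ofReal_le_ofReal ?_) (meas_low hK hTp.le hfin hsum hx0 hy0 hyx)
    rw [le_div_iff₀ hK, hx]
    have hC30 : 0 < C3 := by linarith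
    have h1 := expo hd hd1 hde
    rw [← hkdef, ← hηdef] at h1
    have h2 : 2 * C3 * L ^ (4 * e') ≤ (L / R) ^ ((1 + d) * e ^ 2 - (1 + 10 * k) * (e + 3 * η) ^ 2) := by
      calc 2 * C3 * L ^ (4 * e') ≤ L ^ (d ^ 4 / 2) * L ^ (4 * e') := by gcongr
        _ = L ^ (d * (9 / 10 * d ^ 3)) := by
          rw [← Real.rpow_add hLp, he'def]
          congr 1
          ring
        _ = (L ^ d) ^ (9 / 10 * d ^ 3) := Real.rpow_mul hLp.le _ _
        _ ≤ (L / R) ^ (9 / 10 * d ^ 3) := Real.rpow_le_rpow (by positivity) hU (by positivity)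
        _ ≤ _ := Real.rpow_le_rpow_of_exponent_le hU1 h1
    have h3 : (L / R) ^ (-((1 + d) * e ^ 2)) * (L / R) ^ ((1 + d) * e ^ 2 - (1 + 10 * k) * (e + 3 * η) ^ 2) =
        (L / R) ^ (-((1 + 10 * k) * (e + 3 * η) ^ 2)) := by
      rw [← Real.rpow_add hU0]
      congr 1
      ring
    have h4 : (L / R) ^ (-((1 + d) * e ^ 2)) * (2 * C3 * L ^ (4 * e')) ≤ (L / R) ^ (-((1 + 10 * k) * (e + 3 * η) ^ 2)) := by
      rw [← h3]
      exact mul_le_mul_of_nonneg_left h2 (by positivity)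
    have h5 : 1 / C3 * (L / R) ^ (-((1 + 10 * k) * (e + 3 * η) ^ 2)) * T / 2 =
        (L / R) ^ (-((1 + 10 * k) * (e + 3 * η) ^ 2)) * T / (2 * C3) := by
      field_simp
    rw [h5, le_div_iff₀ (by positivity)]
    calc (L / R) ^ (-((1 + d) * e ^ 2)) * T * L ^ (4 * e') * (2 * C3) =
        (L / R) ^ (-((1 + d) * e ^ 2)) * (2 * C3 * L ^ (4 * e')) * T := by ring
      _ ≤ _ := mul_le_mul_of_nonneg_right h4 hTp.le
  · -- large `A`
    obtain ⟨E, hE, G5⟩ := H5 T R L hT5 hL5 hr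
    have h1 : Icc T (2 * T) ⊆ {t : ℝ | T ≤ t ∧ t ≤ 2 * T ∧ e < |St F T t - Ev F id - A'|} ∪ E := by
      intro t ht
      by_cases hm : t ∈ E
      · exact Or.inr hm
      refine Or.inl ⟨ht.1, ht.2, ?_⟩
      have h2 := G5 t ht hm F
      have h3 : F.B * L ^ e' ≤ L ^ e' * L ^ e' := by gcongr
      have h4 : L ^ (3 * e') = L ^ e' * L ^ e' * L ^ e' := by
        rw [← Real.rpow_add hLp, ← Real.rpow_add hLp]
        congr 1
        ring
      obtain ⟨h5, h6⟩ := three_cube g4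
      have h7 := abs_sub_abs_le_abs_sub A' (St F T t - Ev F id)
      rw [abs_sub_comm A'] at h7
      linarith
    have h2 : ENNReal.ofReal T ≤ volume {t : ℝ | T ≤ t ∧ t ≤ 2 * T ∧ e < |St F T t - Ev F id - A'|} +
        ENNReal.ofReal (C5 * L ^ (-1 : ℝ) * T) := by
      have h3 := (measure_mono h1 (μ := volume)).trans (measure_union_le _ _)
      rw [Real.volume_Icc, show 2 * T - T = T by ring] at h3
      exact h3.trans (add_le_add le_rfl hE)
    have h3 : C5 * L ^ (-1 : ℝ) * T ≤ T / 2 := by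
      rw [Real.rpow_neg_one]
      have h4 : C5 * L⁻¹ ≤ 1 / 2 := by
        rw [← div_eq_mul_inv, div_le_iff₀ hLp]
        linarith
      exact half_mul' h4 hTp.le
    have h4 := meas_low (K := 1) one_pos hTp.le hfin (by rw [ENNReal.ofReal_one, one_mul]; exact h2) hTp.le
      (by positivity) h3
    refine le_trans (ENNReal.ofReal_le_ofReal ?_) h4
    rw [div_one]
    have h5 : (L / R) ^ (-((1 + d) * e ^ 2)) ≤ 1 / 2 := by
      have h6 : d ^ 2 ≤ (1 + d) * e ^ 2 := by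
        have h7 : d ^ 2 ≤ e ^ 2 := pow_le_pow_left₀ hd.le hde 2
        exact sq_le_mul hd.le h7
      calc (L / R) ^ (-((1 + d) * e ^ 2)) ≤ (L / R) ^ (-(d ^ 2)) := Real.rpow_le_rpow_of_exponent_le hU1 (by linarith)
        _ ≤ (L ^ d) ^ (-(d ^ 2)) := Real.rpow_le_rpow_of_nonpos (by positivity) hU (neg_nonpos.2 (sq_nonneg d))
        _ = (L ^ (d ^ 3))⁻¹ := by
          rw [← Real.rpow_mul hLp.le, ← Real.rpow_neg hLp.le]
          congr 1
          ring
        _ ≤ 1 / 2 := by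
          rw [one_div]
          exact inv_anti₀ two_pos g6
    calc (L / R) ^ (-((1 + d) * e ^ 2)) * T ≤ 1 / 2 * T := by gcongr
      _ = T / 2 := by ring

end Pool.Agent.Helper28.OP
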