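import Pool.Agent.Helper62.OP.Defs
import Pool.Agent.Helper49.SO.Quasi
import Pool.Agent.Helper57.SO.MMasy
import Pool.Agent.Helper28.OP.MtSum

/-!
# OP, block O12: the lemmas
-/

set_option autoImplicit false
open MeasureTheory Set Filter Topology
open Pool.Agent.Helper57.Zeta Pool.Agent.Helper57.LH Pool.Agent.Helper57.ED
open Pool.Agent.Helper54.LG (za zb qk SS MM)
open Pool.Agent.Helper93.UG (zc sp)
open Pool.Agent.Helper69.UG (XX NX near far)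
open Pool.Agent.Helper57.TX (QX DP rs)
open Pool.Agent.Helper57.NS (cnt)
open Pool.Agent.Helper62.OP

namespace Pool.Agent.Helper28.OP

/-! ### `Ev` is linear -/

lemma Ev_add {R L : ℝ} (F : Fam R L) (g h : ℝ → ℝ) : Ev F (fun x => g x + h x) = Ev F g + Ev F h := by
  unfold Ev
  have : ∑ i, F.c i * (g (F.b i) + h (F.b i) - (g (F.a i) + h (F.a i))) =
      ∑ i, F.c i * (g (F.b i) - g (F.a i)) + ∑ i, F.c i * (h (F.b i) - h (F.a i)) := by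
    rw [← Finset.sum_add_distrib]
    exact Finset.sum_congr rfl fun i _ => by ring
  rw [this]
  ring

lemma Ev_sub {R L : ℝ} (F : Fam R L) (g h : ℝ → ℝ) : Ev F (fun x => g x - h x) = Ev F g - Ev F h := by
  unfold Ev
  have : ∑ i, F.c i * (g (F.b i) - h (F.b i) - (g (F.a i) - h (F.a i))) =
      ∑ i, F.c i * (g (F.b i) - g (F.a i)) - ∑ i, F.c i * (h (F.b i) - h (F.a i)) := by
    rw [← Finset.sum_sub_distrib]
    exact Finset.sum_congr rfl fun i _ => by ring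
  rw [this]
  ring

lemma Ev_const {R L : ℝ} (F : Fam R L) (c : ℝ) : Ev F (fun _ => c) = 0 := by
  unfold Ev
  simp

lemma B_ge {R L : ℝ} (F : Fam R L) : 1 ≤ F.B := by
  unfold Fam.B
  have := Finset.sum_nonneg (s := Finset.univ) fun i (_ : i ∈ Finset.univ) => abs_nonneg (F.c i)
  linarith

/-! ### the primitives -/

lemma MM_ii {X a b : ℝ} (hX : 1 / 2 ≤ X) (ha : 1 ≤ a) (hb : 1 ≤ b) : IntervalIntegrable (MM X) volume a b := by
  have key : ∀ y₁ y₂ : ℝ, 1 ≤ y₁ → y₁ ≤ y₂ → IntervalIntegrable (MM X) volume y₁ y₂ := by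
    intro y₁ y₂ hy1 hy
    obtain ⟨C1, hC1, hMM⟩ := Pool.Agent.Helper49.SO.MM_asy
    have hX0 : 0 < X := by linarith
    have hy10 : 0 < y₁ := by linarith
    obtain ⟨r1, r2⟩ := Pool.Agent.Helper49.SO.rpow_int hy1 hy
    obtain ⟨q1, q2⟩ := Pool.Agent.Helper49.SO.sq_int hy1 hy
    have hb : ∀ w ∈ Icc y₁ y₂, |X * MM X w - Real.log (w / (2 * Real.pi))| ≤
        C1 * (w ^ (-(3 / 2) : ℝ) + Real.exp (X / 2) * (1 / w ^ 2)) := by
      intro w hw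
      refine (hMM X w hX (hy1.trans hw.1)).trans (le_of_eq ?_)
      ring
    have iL := Pool.Agent.Helper49.SO.log_ii hy10 hy
    have iG : IntervalIntegrable (fun w => C1 * (w ^ (-(3 / 2) : ℝ) + Real.exp (X / 2) * (1 / w ^ 2))) volume y₁ y₂ :=
      (r1.add (q1.const_mul _)).const_mul _
    have mM : Measurable (MM X) := Pool.Agent.Helper69.UG.MM_meas X hX0
    have iD : IntervalIntegrable (fun w => X * MM X w - Real.log (w / (2 * Real.pi))) volume y₁ y₂ := by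
      refine iG.mono_fun' ?_ ?_
      · apply Measurable.aestronglyMeasurable
        exact (mM.const_mul X).sub (Real.measurable_log.comp (measurable_id.div_const _))
      · rw [uIoc_of_le hy]
        filter_upwards [ae_restrict_mem measurableSet_Ioc] with w hw
        exact hb w ⟨hw.1.le, hw.2⟩
    have h1 : MM X = fun w => X⁻¹ * ((X * MM X w - Real.log (w / (2 * Real.pi))) + Real.log (w / (2 * Real.pi))) := by
      funext w
      rw [sub_add_cancel, ← mul_assoc, inv_mul_cancel₀ hX0.ne', one_mul]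
    rw [h1]
    exact (iD.add iL).const_mul _
  rcases le_total a b with h | h
  · exact key a b ha h
  · exact (key b a hb h).symm

/-- size of the parameters -/
lemma rng_facts {k d T R L : ℝ} (hk : 0 < k) (hd : 0 < d) (hd1 : d ≤ 1) (hT : 3 ≤ T) (hL : 1 ≤ L) (h : Rng d T R L) :
    1 ≤ R ∧ R ≤ L ∧ L ^ d ≤ L / R ∧ L ≤ Real.log T ∧ 1 ≤ Xo k T R L ∧ 0 < Ms k R L := by
  obtain ⟨h1, h2, h3⟩ := h
  have hL0 : 0 < L := by linarith
  have hlT : 1 ≤ Real.log T := by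
    rw [Real.le_log_iff_exp_le (by linarith)]
    have := Real.exp_one_lt_d9
    linarith
  have hR1 : 1 ≤ R := (Real.one_le_rpow hL hd.le).trans h2
  have hR0 : 0 < R := by linarith
  have hRL : R ≤ L := by
    refine h3.trans ?_
    calc L ^ (1 - d) ≤ L ^ (1:ℝ) := Real.rpow_le_rpow_of_exponent_le hL (by linarith)
      _ = L := Real.rpow_one _
  have hU : L ^ d ≤ L / R := by
    rw [le_div_iff₀ hR0]
    calc L ^ d * R ≤ L ^ d * L ^ (1 - d) := by gcongr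
      _ = L := by rw [← Real.rpow_add hL0]; simp
  have hLT : L ≤ Real.log T := by
    refine h1.trans ?_
    calc Real.log T ^ (1 - d) ≤ Real.log T ^ (1:ℝ) := Real.rpow_le_rpow_of_exponent_le hlT (by linarith)
      _ = Real.log T := Real.rpow_one _
  have hU1 : 1 ≤ L / R := (one_le_div hR0).2 hRL
  have hMs : 0 < Ms k R L := by unfold Ms; positivity
  refine ⟨hR1, hRL, hU, hLT, ?_, hMs⟩
  have hMR : Ms k R L ≤ R := by
    unfold Ms
    have e1 : (L / R) ^ (-k) ≤ 1 := Real.rpow_le_one_of_one_le_of_nonpos hU1 (by linarith)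
    calc R * (L / R) ^ (-k) ≤ R * 1 := mul_le_mul_of_nonneg_left e1 hR0.le
      _ = R := mul_one _
  show 1 ≤ Real.log T / Ms k R L
  rw [one_le_div hMs]
  linarith

/-- the smoothed increments through the prime sum -/
lemma nt_split {k T R L t x a b : ℝ} (hX : 1 / 2 ≤ Xo k T R L) (ht : 1 ≤ t) (ht' : 1 ≤ t + x * sp T)
    (h1 : |1 / (Ms k R L * sp T) * ∫ u in t..(t + x * sp T), (NX (Xo k T R L) u - (MM (Xo k T R L) u - SS (Xo k T R L) u))| ≤ a)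
    (h2 : |1 / (Ms k R L * sp T) * (∫ u in t..(t + x * sp T), (MM (Xo k T R L) u - SS (Xo k T R L) u)) -
        (x + (Pp k T R L t x - Pp k T R L t 0))| ≤ b) :
    |Nt k T R L t x - x - (Pp k T R L t x - Pp k T R L t 0)| ≤ a + b := by
  have iM := MM_ii hX ht ht'
  have iS : IntervalIntegrable (SS (Xo k T R L)) volume t (t + x * sp T) :=
    (Pool.Agent.Helper69.UG.SS_cont _).intervalIntegrable _ _
  have iN := Pool.Agent.Helper49.SO.NX_ii (show 0 < Xo k T R L by linarith) t (t + x * sp T)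
  rw [intervalIntegral.integral_sub iN (iM.sub iS)] at h1
  unfold Nt
  have e : 1 / (Ms k R L * sp T) * ∫ u in t..(t + x * sp T), NX (Xo k T R L) u =
      1 / (Ms k R L * sp T) * ((∫ u in t..(t + x * sp T), NX (Xo k T R L) u) -
        ∫ u in t..(t + x * sp T), (MM (Xo k T R L) u - SS (Xo k T R L) u)) +
      1 / (Ms k R L * sp T) * ∫ u in t..(t + x * sp T), (MM (Xo k T R L) u - SS (Xo k T R L) u) := by ring
  rw [e]
  have h3 := abs_le.1 h1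
  have h4 := abs_le.1 h2
  rw [abs_le]
  constructor <;> linarith [h3.1, h3.2, h4.1, h4.2]

/-! ### the blocks, as hypotheses -/

def StIncLoss : Prop := ∀ k d : ℝ, 0 < k → k ≤ d / 100 → 0 < d → d ≤ 1 → ∀ B : ℝ, 0 < B →
    ∃ c C T₀ : ℝ, 0 < c ∧ 1 ≤ C ∧ ∀ T R L : ℝ, T₀ ≤ T → C ≤ L → Rng d T R L →
    ∃ E : Set ℝ, volume E ≤ ENNReal.ofReal (C * L ^ (-B) * T) ∧ ∀ t ∈ Icc T (2 * T), t ∉ E → ∀ x : ℝ, |x| ≤ L →
      |1 / (Ms k R L * sp T) * ∫ u in t..(t + x * sp T), (NX (Xo k T R L) u - (MM (Xo k T R L) u - SS (Xo k T R L) u))| ≤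
        C * L ^ (-c)

def StIncPrime : Prop := ∀ k d : ℝ, 0 < k → k ≤ d / 100 → 0 < d → d ≤ 1 → ∀ B : ℝ, 0 < B →
    ∃ c C T₀ : ℝ, 0 < c ∧ 1 ≤ C ∧ ∀ T R L : ℝ, T₀ ≤ T → C ≤ L → Rng d T R L →
    ∃ E : Set ℝ, volume E ≤ ENNReal.ofReal (C * L ^ (-B) * T) ∧ ∀ t ∈ Icc T (2 * T), t ∉ E → ∀ x : ℝ, |x| ≤ L →
      |1 / (Ms k R L * sp T) * (∫ u in t..(t + x * sp T), (MM (Xo k T R L) u - SS (Xo k T R L) u)) -
        (x + (Pp k T R L t x - Pp k T R L t 0))| ≤ C * L ^ (-c)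

def StBd : Prop := ∀ d : ℝ, 0 < d → d ≤ 1 → ∀ e B : ℝ, 0 < e → 0 < B → ∃ C T₀ : ℝ, 1 ≤ C ∧
    ∀ T R L : ℝ, T₀ ≤ T → C ≤ L → Rng d T R L →
    ∃ E : Set ℝ, volume E ≤ ENNReal.ofReal (C * L ^ (-B) * T) ∧ ∀ t ∈ Icc T (2 * T), t ∉ E → ∀ F : Fam R L,
      |St F T t - Ev F id| ≤ F.B * L ^ e

def StStep : Prop := ∀ k d : ℝ, 0 < k → k ≤ d / 100 → 0 < d → d ≤ 1 → ∀ η e' : ℝ, 0 < η → 0 < e' → e' ≤ 1 →
    ∃ C T₀ : ℝ, 1 ≤ C ∧ ∀ T R L : ℝ, T₀ ≤ T → C ≤ L → Rng d T R L → ∀ (F : Fam R L) (A ε : ℝ), F.B ≤ L ^ e' → 0 < ε → ε ≤ 2 →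
      |A| ≤ L ^ (3 * e') →
      volume {t : ℝ | t ∈ Icc (T + √T) (2 * T - √T) ∧ ε + η < |Ev F (Nt k T R L t) - Ev F id - A|} ≤
        ENNReal.ofReal (L ^ (4 * e')) * volume {t : ℝ | T ≤ t ∧ t ≤ 2 * T ∧ ε < |St F T t - Ev F id - A|} +
          ENNReal.ofReal (C * L ^ (-10 : ℝ) * T)

def StPfEq : Prop := ∀ (k T R L : ℝ) (F : Fam R L) (t : ℝ), Pf k T F t = Ev F (Pp k T R L t)

def StEvLe : Prop := ∀ R L v : ℝ, 0 < R → R ≤ L → ∀ (F : Fam R L) (g : ℝ → ℝ), (∀ x : ℝ, |x| ≤ L → |g x| ≤ v) →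
    |Ev F g| ≤ 2 * F.B * v

def StPfTail : Prop := ∀ k d : ℝ, 0 < k → k ≤ d / 100 → 0 < d → d ≤ 1 → ∃ c C T₀ : ℝ, 0 < c ∧ 1 ≤ C ∧
    ∀ T R L e : ℝ, T₀ ≤ T → C ≤ L → Rng d T R L → d / 2 ≤ e → e ≤ 3 → ∀ F : Fam R L, F.B ≤ L ^ c →
      ENNReal.ofReal (1 / C * (L / R) ^ (-((1 + 10 * k) * e ^ 2)) * T) ≤ volume {t : ℝ | t ∈ Icc T (2 * T) ∧ e ≤ Pf k T F t} ∧
      ENNReal.ofReal (1 / C * (L / R) ^ (-((1 + 10 * k) * e ^ 2)) * T) ≤ volume {t : ℝ | t ∈ Icc T (2 * T) ∧ Pf k T F t ≤ -e}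

/-! ### the measure step -/

/-- a lower bound for a measure from a comparison -/
lemma meas_low {Bad : Set ℝ} {x y K T : ℝ} (hK : 0 < K) (hT : 0 ≤ T) (hfin : volume Bad ≤ ENNReal.ofReal T)
    (h : ENNReal.ofReal x ≤ ENNReal.ofReal K * volume Bad + ENNReal.ofReal y) (hx : 0 ≤ x) (hy0 : 0 ≤ y) (hy : y ≤ x / 2) :
    ENNReal.ofReal (x / 2 / K) ≤ volume Bad := by
  have hne : volume Bad ≠ ⊤ := ne_top_of_le_ne_top ENNReal.ofReal_ne_top hfin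
  obtain ⟨b, hb, hb2⟩ : ∃ b : ℝ, 0 ≤ b ∧ volume Bad = ENNReal.ofReal b :=
    ⟨(volume Bad).toReal, ENNReal.toReal_nonneg, (ENNReal.ofReal_toReal hne).symm⟩
  rw [hb2] at h ⊢
  rw [← ENNReal.ofReal_mul hK.le, ← ENNReal.ofReal_add (by positivity) hy0, ENNReal.ofReal_le_ofReal_iff (by positivity)] at h
  apply ENNReal.ofReal_le_ofReal
  rw [div_le_iff₀ hK]
  linarith

/-- the exponents -/
lemma expo {d e : ℝ} (hd : 0 < d) (hd1 : d ≤ 1) (he : d ≤ e) :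
    9 / 10 * d ^ 3 ≤ (1 + d) * e ^ 2 - (1 + 10 * (d / 1000)) * (e + 3 * (d ^ 2 / 100)) ^ 2 := by
  have he0 : 0 < e := by linarith
  have h1 : e + 3 * (d ^ 2 / 100) ≤ e * (1 + 3 / 100 * d) := by nlinarith
  have h2 : (e + 3 * (d ^ 2 / 100)) ^ 2 ≤ (e * (1 + 3 / 100 * d)) ^ 2 := pow_le_pow_left₀ (by positivity) h1 2
  have h3 : (1 + 3 / 100 * d) ^ 2 ≤ 1 + 61 / 1000 * d := by nlinarith
  have h4 : (e * (1 + 3 / 100 * d)) ^ 2 ≤ e ^ 2 * (1 + 61 / 1000 * d) := by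
    rw [mul_pow]
    exact mul_le_mul_of_nonneg_left h3 (by positivity)
  have h5 : (1 + 10 * (d / 1000)) * (e ^ 2 * (1 + 61 / 1000 * d)) ≤ e ^ 2 * (1 + 8 / 100 * d) := by
    have h6 : (1 + 10 * (d / 1000)) * (1 + 61 / 1000 * d) ≤ 1 + 8 / 100 * d := by nlinarith
    calc _ = e ^ 2 * ((1 + 10 * (d / 1000)) * (1 + 61 / 1000 * d)) := by ring
      _ ≤ _ := mul_le_mul_of_nonneg_left h6 (by positivity)
  have h7 : (1 + 10 * (d / 1000)) * (e + 3 * (d ^ 2 / 100)) ^ 2 ≤ e ^ 2 * (1 + 8 / 100 * d) :=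
    le_trans (mul_le_mul_of_nonneg_left (h2.trans h4) (by positivity)) h5
  have h8 : d ^ 2 ≤ e ^ 2 := pow_le_pow_left₀ hd.le he 2
  have h9 : d * d ^ 2 ≤ d * e ^ 2 := mul_le_mul_of_nonneg_left h8 hd.le
  nlinarith

/-! ### small inequalities -/

lemma sp_seven {T L : ℝ} (hlT : 0 < Real.log T) (hLT : L ≤ Real.log T) : L * sp T ≤ 7 ∧ 0 < sp T := by
  unfold sp
  constructor
  · rw [mul_div_assoc', div_le_iff₀ hlT]
    have := Real.pi_lt_d2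
    nlinarith [Real.pi_pos]
  · positivity

lemma sp_low {L x s : ℝ} (hs : L * s ≤ 7) (hs0 : 0 < s) (hx : |x| ≤ L) : -7 ≤ x * s := by
  have h2 := (abs_le.1 hx).1
  nlinarith

lemma half_of {C x y : ℝ} (hC : 0 < C) (h : 2 * C * y ≤ C * x) : y ≤ x / 2 := by
  nlinarith

lemma three_cube {b : ℝ} (hb : 3 ≤ b) : 3 * (b * b) ≤ b * b * b ∧ 1 ≤ b * b := by
  have h1 : 1 ≤ b * b := by nlinarith
  exact ⟨by nlinarith, h1⟩

lemma half_mul' {a T : ℝ} (h : a ≤ 1 / 2) (hT : 0 ≤ T) : a * T ≤ T / 2 := by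
  nlinarith

lemma sq_le_mul {d e : ℝ} (hd : 0 ≤ d) (h : d ^ 2 ≤ e ^ 2) : d ^ 2 ≤ (1 + d) * e ^ 2 := by
  nlinarith [sq_nonneg e]

end Pool.Agent.Helper28.OP
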